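import Mathlib
import Pool.Agent.H932R3.Cone

set_option autoImplicit false

/-!
# Nef classes superpolynomially close to the boundary of the positive cone

For every `k` there is an `N` such that for very general points of the plane and every set `T` of
`t ≥ N` of them, the class `(1 + t ^ (-k)) √t H - ∑_{i ∈ T} E_i` is nef.
-/

namespace Pool.Agent.Results.MP_309968_ag.NearNagataNef

theorem result (k : ℕ) :
    ∃ N : ℕ, ∀ n : ℕ,
      ∃ f : ℕ → MvPolynomial (Fin n × Fin 2) ℂ, (∀ j, f j ≠ 0) ∧
        ∀ p : Fin n → Fin 2 → ℂ,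
          (∀ j, MvPolynomial.eval (fun q : Fin n × Fin 2 => p q.1 q.2) (f j) ≠ 0) →
          ∀ S : Set (ℝ × (Fin n → ℝ)),
            S = {v : ℝ × (Fin n → ℝ) | ∃ (F : MvPolynomial (Fin 3) ℂ) (d : ℕ) (m : Fin n → ℕ),
                  F.IsHomogeneous d ∧ Irreducible F ∧
                  (∀ i : Fin n,
                    (∀ s ∈ (MvPolynomial.aeval
                        ![(MvPolynomial.X 0 : MvPolynomial (Fin 2) ℂ) + MvPolynomial.C (p i 0),
                          (MvPolynomial.X 1 : MvPolynomial (Fin 2) ℂ) + MvPolynomial.C (p i 1),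
                          (1 : MvPolynomial (Fin 2) ℂ)] F).support, m i ≤ s 0 + s 1) ∧
                    (∃ s ∈ (MvPolynomial.aeval
                        ![(MvPolynomial.X 0 : MvPolynomial (Fin 2) ℂ) + MvPolynomial.C (p i 0),
                          (MvPolynomial.X 1 : MvPolynomial (Fin 2) ℂ) + MvPolynomial.C (p i 1),
                          (1 : MvPolynomial (Fin 2) ℂ)] F).support, s 0 + s 1 = m i)) ∧
                  v = ((d : ℝ), fun i => (m i : ℝ))} ∪
                {v : ℝ × (Fin n → ℝ) | ∃ i : Fin n,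
                  v = ((0 : ℝ), (Pi.single i (-1 : ℝ) : Fin n → ℝ))} →
            ∀ x ∈ closure ((Submodule.span {c : ℝ // 0 ≤ c} S : Set (ℝ × (Fin n → ℝ)))),
              ∀ T : Finset (Fin n), N ≤ T.card →
                ∑ i ∈ T, x.2 i ≤ (1 + 1 / (T.card : ℝ) ^ k) * Real.sqrt (T.card : ℝ) * x.1 := by
  obtain ⟨N, hN16, hN⟩ := H932R3.exists_empt k
  refine ⟨N, fun n => ?_⟩
  obtain ⟨f, hf, hf'⟩ := H932R3.exists_conds_sub (K := ℂ) n
  refine ⟨f, hf, fun p hp S hS x hx T hT => ?_⟩
  have hT0 : 0 < T.card := by omega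
  have hTR : (0 : ℝ) < T.card := by exact_mod_cast hT0
  have hs0 : 0 < Real.sqrt T.card := Real.sqrt_pos.2 hTR
  have hss : Real.sqrt T.card * Real.sqrt T.card = T.card := Real.mul_self_sqrt hTR.le
  obtain ⟨c, hc⟩ : ∃ c, c = (1 + 1 / (T.card : ℝ) ^ k) * Real.sqrt (T.card : ℝ) := ⟨_, rfl⟩
  rw [← hc]
  have hgen : ∀ v ∈ S, ∑ i ∈ T, v.2 i ≤ c * v.1 := by
    intro v hv
    rw [hS] at hv
    rcases hv with ⟨F, d, m, hFd, hirr, hm, rfl⟩ | ⟨i, rfl⟩
    · simp only
      have hd : 0 < d := by
        rcases Nat.eq_zero_or_pos d with rfl | hd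
        · exfalso
          have h1 : F.totalDegree = 0 := by
            have := hFd.totalDegree_le
            omega
          rw [MvPolynomial.totalDegree_eq_zero_iff_eq_C] at h1
          rw [h1] at hirr
          by_cases h2 : MvPolynomial.coeff 0 F = 0
          · rw [h2, map_zero] at hirr
            exact hirr.ne_zero rfl
          · exact hirr.not_isUnit ((isUnit_iff_ne_zero.2 h2).map MvPolynomial.C)
        · exact hd
      by_contra hcon
      push Not at hcon
      have hM : ∑ i ∈ T, (m i : ℝ) = ((∑ i ∈ T, m i : ℕ) : ℝ) := by push_cast; rfl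
      rw [hM] at hcon
      refine hirr.ne_zero (hf' p hp T d m hd hT0 ?_ F hFd ?_)
      · refine hN _ hT _ _ (Nat.mul_pos hT0 hd) (Or.inr ?_)
        have h1 := mul_le_mul_of_nonneg_right hcon.le hs0.le
        calc (1 + 1 / (T.card : ℝ) ^ k) * ((T.card * d : ℕ) : ℝ) = c * d * Real.sqrt T.card := by
              rw [hc]
              push_cast
              have h2 : (T.card : ℝ) = Real.sqrt T.card * Real.sqrt T.card := hss.symm
              calc (1 + 1 / (T.card : ℝ) ^ k) * ((T.card : ℝ) * d) =
                  (1 + 1 / (T.card : ℝ) ^ k) * ((Real.sqrt T.card * Real.sqrt T.card) * d) := by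
                    rw [hss]
                _ = (1 + 1 / (T.card : ℝ) ^ k) * Real.sqrt T.card * d * Real.sqrt T.card := by
                    ring
          _ ≤ _ := h1
      · unfold H932R3.ptJ H932R3.vIdeal
        rw [Ideal.mem_iInf]
        intro i
        exact H932R3.mem_of_support (p := p i) (hm i).1
    · simp only [mul_zero]
      refine Finset.sum_nonpos fun j _ => ?_
      by_cases hji : j = i
      · rw [hji, Pi.single_eq_same]
        norm_num
      · rw [Pi.single_eq_of_ne hji]
  have hspan : ∀ v ∈ Submodule.span {c : ℝ // 0 ≤ c} S, ∑ i ∈ T, v.2 i ≤ c * v.1 := by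
    intro v hv
    refine Submodule.span_induction ?_ ?_ ?_ ?_ hv
    · exact fun v hv => hgen v hv
    · simp
    · intro a b _ _ ha hb
      simp only [Prod.snd_add, Pi.add_apply, Prod.fst_add, Finset.sum_add_distrib, mul_add]
      linarith
    · rintro ⟨a, ha⟩ v _ hv
      have h1 : (⟨a, ha⟩ : {c : ℝ // 0 ≤ c}) • v = a • v := rfl
      rw [h1]
      simp only [Prod.smul_snd, Pi.smul_apply, Prod.smul_fst, smul_eq_mul, ← Finset.mul_sum]
      have := mul_le_mul_of_nonneg_left hv ha
      linarith
  have hcl : IsClosed {v : ℝ × (Fin n → ℝ) | ∑ i ∈ T, v.2 i ≤ c * v.1} := by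
    refine isClosed_le ?_ ?_
    · exact continuous_finsetSum _ fun i _ => (continuous_apply i).comp continuous_snd
    · exact continuous_const.mul continuous_fst
  exact closure_minimal (fun v hv => hspan v hv) hcl hx

end Pool.Agent.Results.MP_309968_ag.NearNagataNef
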