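import Mathlib
import Pool.Agent.H951R2.Nef

set_option autoImplicit false

namespace Pool.Agent.Results.MP_309968_ag.NefSlice

open Pool.Agent.H951R2

/-- The classes (in the coordinates degree, multiplicities) of the irreducible curves on the
blow-up of the plane at the points `p i = (p i 0 : p i 1 : 1)`: the class `(d; m)` of the proper
transform of an irreducible plane curve `F = 0` of degree `d` whose multiplicity at `p i` is exactly
`m i`, and the classes `(0; -e_i)` of the exceptional curves. -/
def curveClasses {n : ℕ} (p : Fin n → Fin 2 → ℂ) : Set (ℝ × (Fin n → ℝ)) :=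
  {v : ℝ × (Fin n → ℝ) | ∃ (F : MvPolynomial (Fin 3) ℂ) (d : ℕ) (m : Fin n → ℕ),
      F.IsHomogeneous d ∧ Irreducible F ∧
      (∀ i : Fin n,
        (∀ s ∈ (MvPolynomial.aeval
            ![(MvPolynomial.X 0 : MvPolynomial (Fin 2) ℂ) + MvPolynomial.C (p i 0),
              (MvPolynomial.X 1 : MvPolynomial (Fin 2) ℂ) + MvPolynomial.C (p i 1),
              (1 : MvPolynomial (Fin 2) ℂ)] F).support, m i ≤ s 0 + s 1) ∧
        (∃ s ∈ (MvPolynomial.aeval
            ![(MvPolynomial.X 0 : MvPolynomial (Fin 2) ℂ) + MvPolynomial.C (p i 0),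
              (MvPolynomial.X 1 : MvPolynomial (Fin 2) ℂ) + MvPolynomial.C (p i 1),
              (1 : MvPolynomial (Fin 2) ℂ)] F).support, s 0 + s 1 = m i)) ∧
      v = ((d : ℝ), fun i => (m i : ℝ))} ∪
    {v : ℝ × (Fin n → ℝ) | ∃ i : Fin n,
      v = ((0 : ℝ), (Pi.single i (-1 : ℝ) : Fin n → ℝ))}

/-- The closed cone of curves. -/
def curvCone {n : ℕ} (p : Fin n → Fin 2 → ℂ) : Set (ℝ × (Fin n → ℝ)) :=
  closure ((Submodule.span {c : ℝ // 0 ≤ c} (curveClasses p) : Set (ℝ × (Fin n → ℝ))))

/-- For `n ≥ 10` very general points and any nine of them (the set `T`): every real class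
`D = (d; D_i)` with `d ≥ 0`, `D² ≥ 0` and `D_j = 3 d - ∑_{i ∈ T} D_i` for all `j ∉ T` is nef. -/
theorem result :
    ∀ n : ℕ, 10 ≤ n →
      ∃ f : ℕ → MvPolynomial (Fin n × Fin 2) ℂ, (∀ k, f k ≠ 0) ∧
        ∀ p : Fin n → Fin 2 → ℂ,
          (∀ k, MvPolynomial.eval (fun q : Fin n × Fin 2 => p q.1 q.2) (f k) ≠ 0) →
          ∀ T : Finset (Fin n), T.card = 9 →
          ∀ (d : ℝ) (D : Fin n → ℝ), 0 ≤ d → ∑ i, D i ^ 2 ≤ d ^ 2 →
            (∀ j : Fin n, j ∉ T → D j = 3 * d - ∑ i ∈ T, D i) →
            ∀ x ∈ curvCone p, 0 ≤ d * x.1 - ∑ i, D i * x.2 i := by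
  intro n hn
  obtain ⟨f, hf0, hf⟩ := very_general_aff n
  refine ⟨f, hf0, ?_⟩
  intro p hp T hT d D hd hD hL
  have hv : ∀ (e : ℕ) (m : Fin n → ℕ), (cT T e m < 0 ∨ QT T e m < 0) →
      NonEff (fun i => ![p i 0, p i 1, 1]) m e := fun e m h =>
    hf p hp e m (exists_nonEff hn T hT e m h)
  -- the generators
  have hgen : ∀ x ∈ curveClasses p, 0 ≤ d * x.1 - ∑ i, D i * x.2 i := by
    rintro x (⟨F, e, m, hF, hirr, hm, rfl⟩ | ⟨i, rfl⟩)
    · have h1 : ∀ i, Mult F ((fun i => ![p i 0, p i 1, 1]) i) (m i) := by
        intro i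
        apply chart_rev hF (p i)
        rw [MvPolynomial.mem_pow_idealOfVars_iff']
        intro s hs
        by_contra hne
        have h2 := (hm i).1 s (MvPolynomial.mem_support_iff.2 hne)
        rw [Finsupp.degree_eq_sum, Fin.sum_univ_two] at hs
        omega
      exact nef_eff T hT hv hd hD hL hF hirr.ne_zero h1
    · -- exceptional curves
      have hDi : 0 ≤ D i := by
        have hn9 : (0 : ℝ) ≤ (n : ℝ) - 10 := by
          have : (10 : ℝ) ≤ n := by exact_mod_cast hn
          linarith
        by_cases hi : i ∈ T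
        · have h1 := nef_real T hT hd hD hL (e := 0) (μ := Pi.single i (-1)) (by
            rw [Finset.sum_pi_single', if_pos hi]; norm_num) (by
            have e1 : ∑ j ∈ T, (Pi.single i (-1) : Fin n → ℝ) j = -1 := by
              rw [Finset.sum_pi_single', if_pos hi]
            have e2 : ∑ j ∈ T, (Pi.single i (-1) : Fin n → ℝ) j ^ 2 = 1 := by
              rw [Finset.sum_eq_single i]
              · simp
              · intro j _ hj
                simp [Pi.single_eq_of_ne hj]
              · intro h; exact absurd hi h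
            have e3 : ∑ j ∈ Tᶜ, (Pi.single i (-1) : Fin n → ℝ) j = 0 := by
              rw [Finset.sum_pi_single', if_neg]
              rw [Finset.mem_compl]
              exact fun h => h hi
            rw [e1, e2, e3]
            linarith)
          have e4 : ∑ j, D j * (Pi.single i (-1) : Fin n → ℝ) j = -D i := by
            rw [Finset.sum_eq_single i]
            · simp
            · intro j _ hj
              simp [Pi.single_eq_of_ne hj]
            · intro h; exact absurd (Finset.mem_univ i) h
          rw [e4] at h1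
          linarith
        · rw [hL i hi]
          have cs1 : (∑ i ∈ T, D i) ^ 2 ≤ 9 * ∑ i ∈ T, D i ^ 2 := by
            have := sq_sum_le_card_mul_sum_sq (s := T) (f := D)
            rw [hT] at this
            exact_mod_cast this
          have h1 : ∑ i ∈ T, D i ^ 2 ≤ ∑ i, D i ^ 2 :=
            Finset.sum_le_sum_of_subset_of_nonneg (Finset.subset_univ T)
              (fun i _ _ => sq_nonneg _)
          have h2 : (∑ i ∈ T, D i) ^ 2 ≤ (3 * d) ^ 2 := by nlinarith
          have h3 := (abs_le_of_sq_le_sq' h2 (by positivity)).2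
          linarith
      have e4 : ∑ j, D j * (Pi.single i (-1 : ℝ) : Fin n → ℝ) j = -D i := by
        rw [Finset.sum_eq_single i]
        · simp
        · intro j _ hj
          simp [Pi.single_eq_of_ne hj]
        · intro h; exact absurd (Finset.mem_univ i) h
      change 0 ≤ d * 0 - ∑ j, D j * (Pi.single i (-1 : ℝ) : Fin n → ℝ) j
      rw [e4]
      linarith
  -- the span
  have hspan : ∀ x ∈ (Submodule.span {c : ℝ // 0 ≤ c} (curveClasses p)),
      0 ≤ d * x.1 - ∑ i, D i * x.2 i := by
    intro x hx
    induction hx using Submodule.span_induction with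
    | mem x h => exact hgen x h
    | zero => simp
    | add x y _ _ h1 h2 =>
      have : d * (x + y).1 - ∑ i, D i * (x + y).2 i =
          (d * x.1 - ∑ i, D i * x.2 i) + (d * y.1 - ∑ i, D i * y.2 i) := by
        simp only [Prod.fst_add, Prod.snd_add, Pi.add_apply, mul_add, Finset.sum_add_distrib]
        ring
      rw [this]
      exact add_nonneg h1 h2
    | smul c x _ h =>
      have : d * (c • x).1 - ∑ i, D i * (c • x).2 i =
          (c : ℝ) * (d * x.1 - ∑ i, D i * x.2 i) := by
        have e1 : (c • x).1 = (c : ℝ) * x.1 := rfl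
        have e2 : ∀ i, (c • x).2 i = (c : ℝ) * x.2 i := fun i => rfl
        simp only [e1, e2]
        rw [mul_sub, Finset.mul_sum]
        congr 1
        · ring
        · exact Finset.sum_congr rfl fun i _ => by ring
      rw [this]
      exact mul_nonneg c.2 h
  intro x hx
  have hcl : IsClosed {x : ℝ × (Fin n → ℝ) | 0 ≤ d * x.1 - ∑ i, D i * x.2 i} := by
    apply isClosed_le continuous_const
    fun_prop
  exact closure_minimal (fun x hx => hspan x hx) hcl hx

end Pool.Agent.Results.MP_309968_ag.NefSlice
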